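import Pool.Agent.Helper6.LP.V6d
import Pool.Agent.Helper5.V.V3
import Pool.Agent.Helper5.V.V4
import Pool.Agent.Helper8.VL.Glue
import Pool.Agent.Helper7.LV.StV2

/-!
The valuative faithfulness theorem.
-/

namespace VF

universe u

/-- **Theorem L'** -/
theorem thmL' : StV6.{u} := stV6 stV1 stV2 stV3 stV4 stV4'

end VF
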