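import Mathlib

/-!
Selection of factors whose values are independent.
-/

namespace LP

/-- in an abelian group: if `r` independent elements lie in the span of a finite family, then the
family has `r` independent members -/
theorem exists_sub_independent {M : Type*} [AddCommGroup M] {ι : Type*} [Finite ι] {r : ℕ}
    (g : ι → M) (T : Fin r → M) (hT : LinearIndependent ℤ T)
    (hspan : ∀ i, T i ∈ Submodule.span ℤ (Set.range g)) :
    ∃ t : Fin r → ι, LinearIndependent ℤ (g ∘ t) := by
  classical
  have := Fintype.ofFinite ι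
  obtain ⟨s, hs, hmax⟩ := exists_maximal_linearIndepOn ℤ g
  -- a common multiple
  have h1 : ∀ i, ∃ a : ℤ, a ≠ 0 ∧ a • g i ∈ Submodule.span ℤ (g '' s) := by
    intro i
    by_cases hi : i ∈ s
    · exact ⟨1, one_ne_zero, by rw [one_smul]; exact Submodule.subset_span ⟨i, hi, rfl⟩⟩
    · exact hmax i hi
  choose a ha0 ha using h1
  set m : ℤ := ∏ i, a i with hm
  have hm0 : m ≠ 0 := Finset.prod_ne_zero_iff.2 fun i _ => ha0 i
  have h2 : ∀ i, m • g i ∈ Submodule.span ℤ (g '' s) := by
    intro i
    rw [hm, ← Finset.mul_prod_erase Finset.univ a (Finset.mem_univ i), mul_comm, mul_smul]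
    exact Submodule.smul_mem _ _ (ha i)
  have h3 : ∀ x ∈ Submodule.span ℤ (Set.range g), m • x ∈ Submodule.span ℤ (g '' s) := by
    intro x hx
    refine Submodule.span_induction (p := fun x _ => m • x ∈ Submodule.span ℤ (g '' s))
      ?_ ?_ ?_ ?_ hx
    · rintro _ ⟨i, rfl⟩; exact h2 i
    · rw [smul_zero]; exact Submodule.zero_mem _
    · intro x y _ _ hx hy
      rw [smul_add]; exact Submodule.add_mem _ hx hy
    · intro c x _ hx
      rw [smul_comm]; exact Submodule.smul_mem _ _ hx
  -- the multiples of `T` are independent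
  have h4 : LinearIndependent ℤ (fun i => m • T i) := by
    rw [Fintype.linearIndependent_iff] at hT ⊢
    intro c hc i
    have h5 := hT (fun i => c i * m) (by simpa only [mul_smul] using hc) i
    exact (mul_eq_zero.1 h5).resolve_right hm0
  have h6 : Fintype.card (Fin r) ≤ Fintype.card (g '' s : Set M) := by
    apply linearIndependent_le_span_aux' _ h4
    rintro _ ⟨i, rfl⟩
    exact h3 _ (hspan i)
  have h7 : r ≤ Fintype.card s := by
    rw [Fintype.card_fin] at h6
    refine h6.trans ?_
    refine Fintype.card_le_of_surjective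
      (fun x : s => (⟨g x, x, x.2, rfl⟩ : (g '' s : Set M))) ?_
    rintro ⟨_, x, hx, rfl⟩
    exact ⟨⟨x, hx⟩, rfl⟩
  obtain ⟨e⟩ : Nonempty (Fin r ↪ s) := by
    apply Function.Embedding.nonempty_of_card_le
    simpa using h7
  refine ⟨fun i => (e i : ι), ?_⟩
  have h9 : LinearIndependent ℤ (fun i : s => g i) := hs
  exact h9.comp e e.injective

/-- the values of `T` are independent modulo units of the valuation ring -/
def VInd {L : Type*} [Field L] (V : ValuationSubring L) {r : ℕ} (T : Fin r → L) : Prop :=
  (∀ i, T i ≠ 0) ∧ ∀ n : Fin r → ℤ, V.valuation (∏ i, T i ^ n i) = 1 → n = 0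

/-- **V5** -/
theorem exists_factors {L : Type*} [Field L] (V : ValuationSubring L) {r : ℕ} (T : Fin r → L)
    (hT : VInd V T) {ι : Type*} [Fintype ι] (g : ι → L) (hg : ∀ j, g j ≠ 0) (A : Fin r → ι → ℤ)
    (hTg : ∀ i, T i = ∏ j, g j ^ A i j) : ∃ t : Fin r → ι, VInd V (g ∘ t) := by
  classical
  let M := Additive (V.ValueGroup)ˣ
  have hv : ∀ {x : L}, x ≠ 0 → V.valuation x ≠ 0 := fun hx => by simpa using hx
  let val : Lˣ →* (V.ValueGroup)ˣ := Units.map (V.valuation : L →* V.ValueGroup)
  let G : ι → M := fun j => Additive.ofMul (val (Units.mk0 (g j) (hg j)))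
  let TT : Fin r → M := fun i => Additive.ofMul (val (Units.mk0 (T i) (hT.1 i)))
  -- criterion
  have crit : ∀ (x : Fin r → L) (hx : ∀ i, x i ≠ 0), (∀ n : Fin r → ℤ,
      V.valuation (∏ i, x i ^ n i) = 1 → n = 0) ↔
      LinearIndependent ℤ (fun i => (Additive.ofMul (val (Units.mk0 (x i) (hx i))) : M)) := by
    intro x hx
    rw [Fintype.linearIndependent_iff]
    have key : ∀ n : Fin r → ℤ, (∑ i, n i • (Additive.ofMul (val (Units.mk0 (x i) (hx i))) : M)) =
        Additive.ofMul (val (∏ i, Units.mk0 (x i) (hx i) ^ n i)) := by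
      intro n
      rw [map_prod, ofMul_prod]
      apply Finset.sum_congr rfl
      intro i _
      rw [map_zpow, ofMul_zpow]
    have key2 : ∀ n : Fin r → ℤ, (Additive.ofMul (val (∏ i, Units.mk0 (x i) (hx i) ^ n i)) : M) = 0
        ↔ V.valuation (∏ i, x i ^ n i) = 1 := by
      intro n
      rw [ofMul_eq_zero, Units.ext_iff]
      have : ((∏ i, Units.mk0 (x i) (hx i) ^ n i : Lˣ) : L) = ∏ i, x i ^ n i := by
        rw [Units.coe_prod]
        apply Finset.prod_congr rfl
        intro i _
        simp
      simp only [val, Units.coe_map, Units.val_one]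
      rw [this]
      rfl
    constructor
    · intro h c hc i
      rw [key, key2] at hc
      exact congrFun (h c hc) i
    · intro h n hn
      funext i
      exact h n (by rw [key, key2]; exact hn) i
  have hTT : LinearIndependent ℤ TT := (crit T hT.1).1 hT.2
  obtain ⟨t, ht⟩ := exists_sub_independent G TT hTT (by
    intro i
    have h1 : TT i = ∑ j, A i j • G j := by
      have h2 : (Units.mk0 (T i) (hT.1 i)) = ∏ j, Units.mk0 (g j) (hg j) ^ A i j := by
        rw [Units.ext_iff, Units.coe_prod]
        simp [hTg i]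
      simp only [TT, G]
      rw [h2, map_prod, ofMul_prod]
      apply Finset.sum_congr rfl
      intro j _
      rw [map_zpow, ofMul_zpow]
    rw [h1]
    exact Submodule.sum_mem _ fun j _ => Submodule.smul_mem _ _ (Submodule.subset_span ⟨j, rfl⟩))
  exact ⟨t, fun i => hg _, (crit (g ∘ t) (fun i => hg _)).2 ht⟩

end LP
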