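import Pool.Agent.Helper6.LP.Select
import Pool.Agent.Helper5.V.Defs

/-!
V5: selection of independent elements from a generating set.
-/

namespace VF

universe u

/-- **V5** -/
theorem stV5 : StV5.{u} := by
  intro A _ _ r a S ha hmem
  -- finitely many elements of `S` suffice
  have h1 : ∀ i, ∃ S₀ : Finset A, (S₀ : Set A) ⊆ S ∧ a i ∈ Submodule.span ℤ (S₀ : Set A) := by
    intro i
    have h2 : a i ∈ Submodule.span ℤ S := by
      have h3 := hmem i
      rw [← Submodule.span_int_eq_addSubgroupClosure] at h3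
      exact h3
    exact Submodule.mem_span_finite_of_mem_span h2
  choose S₀ hS₀ hS₀' using h1
  classical
  let T : Finset A := Finset.univ.biUnion S₀
  have hTS : ∀ x ∈ T, x ∈ S := by
    intro x hx
    obtain ⟨i, -, hi⟩ := Finset.mem_biUnion.1 hx
    exact hS₀ i hi
  obtain ⟨t, ht⟩ := LP.exists_sub_independent (ι := T) (fun x => (x : A)) a ha (by
    intro i
    refine Submodule.span_mono ?_ (hS₀' i)
    intro x hx
    exact ⟨⟨x, Finset.mem_biUnion.2 ⟨i, Finset.mem_univ _, hx⟩⟩, rfl⟩)
  exact ⟨fun i => (t i : A), fun i => hTS _ (t i).2, ht⟩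

end VF
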