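import Pool.Agent.Helper6.LP.V5

/-!
V6, preparations: transfer of values of factors.
-/

open MvPolynomial

namespace VF

universe u

/-- constants of the rational function field -/
noncomputable def cst (F : Type u) [Field F] (r : ℕ) : F →+* Rat F r :=
  (algebraMap (MvPolynomial (Fin r) F) (Rat F r)).comp C

theorem frMap_cst {F E : Type u} [Field F] [Field E] (e : F →+* E) (r : ℕ) (c : F) :
    frMap e r (cst F r c) = cst E r (e c) := by
  unfold cst
  simp only [RingHom.comp_apply]
  rw [frMap_algebraMap, map_C]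

/-- linear disjointness in terms of ring homs -/
theorem stV3_hom (h3 : StV3.{u}) {F E L : Type u} [Field F] [Field E] [CharZero E] [Field L]
    (i : F →+* E) (hcl : ∀ x : E, (∃ p : Polynomial F, p ≠ 0 ∧ p.eval₂ i x = 0) → ∃ y, i y = x)
    (j : E →+* L) {m : ℕ} (x : Fin m → E)
    (hx : ∀ a : Fin m → F, ∑ l, i (a l) * x l = 0 → a = 0) (c : Fin m → L)
    (hc : ∀ l, ∃ p : Polynomial F, p ≠ 0 ∧ p.eval₂ (j.comp i) (c l) = 0)
    (hs : ∑ l, c l * j (x l) = 0) : ∀ l, c l = 0 := by
  refine h3 E L i.fieldRange ?_ j m x ?_ c ?_ hs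
  · intro y hy
    obtain ⟨p, hp, hpy⟩ := hy
    let e : F ≃+* i.fieldRange := RingEquiv.ofBijective i.rangeRestrictField
      ⟨i.rangeRestrictField.injective, i.rangeRestrictField_bijective.2⟩
    obtain ⟨z, hz⟩ := hcl y ⟨p.map (e.symm : i.fieldRange →+* F), by
      rwa [Ne, Polynomial.map_eq_zero], by
      rw [Polynomial.eval₂_map]
      have : i.comp (e.symm : i.fieldRange →+* F) = algebraMap i.fieldRange E := by
        ext z
        have h1 : e (e.symm z) = z := e.apply_symm_apply z
        have h2 : ((e (e.symm z) : i.fieldRange) : E) = i (e.symm z) := rfl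
        show i (e.symm z) = (z : E)
        rw [← h2, h1]
      rw [this]
      exact hpy⟩
    exact ⟨z, hz⟩
  · rw [Fintype.linearIndependent_iff]
    intro a ha l
    have h1 : ∀ l, ∃ b, i b = (a l : E) := fun l => (a l).2
    choose b hb using h1
    have h2 : b = 0 := hx b (by
      rw [← ha]
      apply Finset.sum_congr rfl
      intro l _
      rw [hb, Subfield.smul_def]; rfl)
    have h3 := hb l
    rw [h2, Pi.zero_apply, map_zero] at h3
    exact Subtype.ext h3.symm
  · intro l
    obtain ⟨p, hp, hpc⟩ := hc l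
    refine ⟨p.map i.rangeRestrictField, by rwa [Ne, Polynomial.map_eq_zero], ?_⟩
    rw [Polynomial.eval₂_map]
    exact hpc

end VF
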