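import Pool.Agent.Helper6.LP.V6a

/-!
V6: the unit lemma.
-/

open MvPolynomial

namespace VF

universe u

/-- a combination of linearly independent constants with algebraic residues is a unit -/
theorem unit_sum (h3 : StV3.{u}) {F E L : Type u} [Field F] [Field E] [CharZero E] [Field L]
    (V : ValuationSubring L)
    (i : F →+* E) (hcl : ∀ x : E, (∃ p : Polynomial F, p ≠ 0 ∧ p.eval₂ i x = 0) → ∃ y, i y = x)
    (j : E →+* L) (hj : ∀ c, j c ∈ V) {m : ℕ} (x : Fin m → E)
    (hx : ∀ a : Fin m → F, ∑ l, i (a l) * x l = 0 → a = 0) (c : Fin m → L)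
    (hcV : ∀ l, c l ∈ V)
    (hc : ∀ l, ∃ p : Polynomial F, p ≠ 0 ∧ V.valuation (p.eval₂ (j.comp i) (c l)) < 1)
    (l₀ : Fin m) (hl₀ : c l₀ = 1) : V.valuation (∑ l, c l * j (x l)) = 1 := by
  let jV : E →+* V := j.codRestrict V.toSubring hj
  let res : V →+* IsLocalRing.ResidueField V := IsLocalRing.residue V
  have hlt : ∀ a : V, V.valuation (a : L) < 1 ↔ res a = 0 := by
    intro a
    rw [← V.valuation_lt_one_iff]
    exact (IsLocalRing.residue_eq_zero_iff a).symm
  let s : V := ∑ l, (⟨c l, hcV l⟩ : V) * jV (x l)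
  have hs : (s : L) = ∑ l, c l * j (x l) := by
    simp only [s]
    push_cast
    rfl
  rw [← hs]
  by_contra hne
  have h1 : V.valuation (s : L) < 1 := lt_of_le_of_ne (V.valuation_le_one s) hne
  rw [hlt] at h1
  have h2 : ∑ l, res ⟨c l, hcV l⟩ * (res.comp jV) (x l) = 0 := by
    rw [← h1]
    simp only [s]
    rw [map_sum]
    apply Finset.sum_congr rfl
    intro l _
    rw [map_mul]; rfl
  have h4 := stV3_hom h3 i hcl (res.comp jV) x hx (fun l => res ⟨c l, hcV l⟩) (by
    intro l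
    obtain ⟨p, hp, hpc⟩ := hc l
    refine ⟨p, hp, ?_⟩
    have h5 : ((p.eval₂ (jV.comp i) (⟨c l, hcV l⟩ : V) : V) : L) =
        p.eval₂ (j.comp i) (c l) := by
      have := Polynomial.hom_eval₂ p (jV.comp i) V.subtype (⟨c l, hcV l⟩ : V)
      exact this
    rw [← h5, hlt] at hpc
    rw [← hpc, Polynomial.hom_eval₂]
    rfl) h2 l₀
  have h6 : (⟨c l₀, hcV l₀⟩ : V) = 1 := Subtype.ext hl₀
  simp only [h6, map_one] at h4
  exact one_ne_zero h4

/-- values on the two sides agree -/
structure Sides {F K' Ω' : Type u} [Field F] [Field K'] [Field Ω'] (r : ℕ) (i : F →+* K')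
    (e : F →+* Ω') (V : ValuationSubring (Rat K' r)) (V' : ValuationSubring (Rat Ω' r)) :
    Prop where
  const : ∀ c : K', cst K' r c ∈ V
  const' : ∀ c : Ω', cst Ω' r c ∈ V'
  le : ∀ z : Rat F r, V.valuation (frMap i r z) ≤ 1 → V'.valuation (frMap e r z) ≤ 1
  lt : ∀ z : Rat F r, V.valuation (frMap i r z) < 1 → V'.valuation (frMap e r z) < 1

theorem Sides.eq_one {F K' Ω' : Type u} [Field F] [Field K'] [Field Ω'] {r : ℕ} {i : F →+* K'}
    {e : F →+* Ω'} {V : ValuationSubring (Rat K' r)} {V' : ValuationSubring (Rat Ω' r)}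
    (h : Sides r i e V V') {z : Rat F r} (hz : z ≠ 0)
    (h1 : V'.valuation (frMap e r z) = 1) : V.valuation (frMap i r z) = 1 := by
  rcases lt_trichotomy (V.valuation (frMap i r z)) 1 with h2 | h2 | h2
  · exact absurd h1 (h.lt z h2).ne
  · exact h2
  · exfalso
    have hz' : V.valuation (frMap i r z) ≠ 0 := by
      rw [Ne, map_eq_zero, map_eq_zero]; exact hz
    have h3 : V.valuation (frMap i r z⁻¹) < 1 := by
      rw [map_inv₀, map_inv₀]
      exact inv_lt_one_of_one_lt₀ h2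
    have h4 := h.lt _ h3
    rw [map_inv₀, map_inv₀, h1, inv_one] at h4
    exact lt_irrefl _ h4

end VF
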