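import Pool.Agent.Helper6.LP.V6b

/-!
V6: transfer of the value of a factor.
-/

open MvPolynomial

namespace VF

universe u

theorem lt_one_iff {L : Type*} [Field L] (V : ValuationSubring L) (z : L) :
    V.valuation z < 1 ↔ z = 0 ∨ z⁻¹ ∉ V := by
  by_cases hz : z = 0
  · subst hz; simp
  · have hv : V.valuation z ≠ 0 := by rw [Ne, map_eq_zero]; exact hz
    rw [← V.valuation_le_one_iff, map_inv₀, or_iff_right hz, not_le]
    rw [one_lt_inv₀ (by exact zero_lt_iff.2 hv)]

theorem comap_lt_one {L L' : Type*} [Field L] [Field L'] (f : L →+* L') (V : ValuationSubring L')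
    (z : L) : (V.comap f).valuation z < 1 ↔ V.valuation (f z) < 1 := by
  rw [lt_one_iff, lt_one_iff, ValuationSubring.mem_comap, map_inv₀, map_eq_zero]

theorem comap_le_one {L L' : Type*} [Field L] [Field L'] (f : L →+* L') (V : ValuationSubring L')
    (z : L) : (V.comap f).valuation z ≤ 1 ↔ V.valuation (f z) ≤ 1 := by
  rw [ValuationSubring.valuation_le_one_iff, ValuationSubring.valuation_le_one_iff,
    ValuationSubring.mem_comap]

theorem comap_eq_one {L L' : Type*} [Field L] [Field L'] (f : L →+* L') (V : ValuationSubring L')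
    (z : L) : (V.comap f).valuation z = 1 ↔ V.valuation (f z) = 1 := by
  constructor
  · intro h
    refine le_antisymm ((comap_le_one f V z).1 h.le) ?_
    by_contra h2
    push Not at h2
    exact absurd h ((comap_lt_one f V z).2 h2).ne
  · intro h
    refine le_antisymm ((comap_le_one f V z).2 h.le) ?_
    by_contra h2
    push Not at h2
    exact absurd h ((comap_lt_one f V z).1 h2).ne

variable {K Ω : Type u} [Field K] [CharZero K] [Field Ω] {O : Subring K} {ρ : O →+* Ω} {r : ℕ}

/-- the embedding of a subfield contained in `O` -/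
noncomputable def eO {F : Subfield K} (h : F.toSubring ≤ O) : F →+* O := Subring.inclusion h

theorem factor_transfer (h3 : StV3.{u}) (h4 : StV4.{u}) {F F₂ : Subfield K} (hFF : F ≤ F₂)
    (hle : F.toSubring ≤ O) (hle₂ : F₂.toSubring ≤ O)
    (hcl : ∀ x : K, IsAlgebraic F x → x ∈ F)
    {V : ValuationSubring (Rat K r)} {V' : ValuationSubring (Rat Ω r)}
    (hS : Sides r F.subtype (ρ.comp (eO hle)) V V')
    (t : Fin r → Rat F r) (ht : MI (V.comap (frMap F.subtype r)).valuation t)
    (ht0 : ∀ i, t i ≠ 0) (g : MvPolynomial (Fin r) O) (hg : g ≠ 0)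
    (hgc : ∀ m, ((coeff m g : O) : K) ∈ F₂) :
    ∃ a : Rat F r, a ≠ 0 ∧
      V.valuation (algebraMap _ _ (MvPolynomial.map O.subtype g)) =
        V.valuation (frMap F.subtype r a) ∧
      V'.valuation (algebraMap _ _ (MvPolynomial.map ρ g)) =
        V'.valuation (frMap (ρ.comp (eO hle)) r a) := by
  classical
  -- the span of the coefficients
  let W : Submodule F K := Submodule.span F (((fun m => ((coeff m g : O) : K)) '' (g.support : Set _)))
  have hWfin : Module.Finite F W := by
    apply Module.Finite.span_of_finite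
    exact (Finset.finite_toSet _).image _
  have hW2 : ∀ y ∈ W, y ∈ F₂ := by
    intro y hy
    refine Submodule.span_induction (p := fun y _ => y ∈ F₂) ?_ ?_ ?_ ?_ hy
    · rintro _ ⟨m, -, rfl⟩; exact hgc m
    · exact F₂.zero_mem
    · intro x y _ _ hx hy; exact F₂.add_mem hx hy
    · intro c x _ hx
      rw [Subfield.smul_def]
      exact F₂.mul_mem (hFF c.2) hx
  have hcW : ∀ m, ((coeff m g : O) : K) ∈ W := by
    intro m
    by_cases hm : m ∈ g.support
    · exact Submodule.subset_span ⟨m, hm, rfl⟩
    · rw [notMem_support_iff.1 hm]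
      exact W.zero_mem
  let b := Module.finBasis F W
  set p := Module.finrank F W with hp
  let x : Fin p → F₂ := fun l => ⟨(b l : K), hW2 _ (b l).2⟩
  let a : Fin p → MvPolynomial (Fin r) F := fun l =>
    ∑ m ∈ g.support, monomial m (b.repr ⟨((coeff m g : O) : K), hcW m⟩ l)
  have hacoeff : ∀ l m, coeff m (a l) = b.repr ⟨((coeff m g : O) : K), hcW m⟩ l := by
    intro l m
    simp only [a]
    rw [coeff_sum]
    simp only [coeff_monomial]
    rw [Finset.sum_ite_eq' g.support m]
    split_ifs with hm
    · rfl
    · have h0 : coeff m g = 0 := notMem_support_iff.1 hm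
      have h1 : (⟨((coeff m g : O) : K), hcW m⟩ : W) = 0 := Subtype.ext (by
        show ((coeff m g : O) : K) = 0
        rw [h0]; rfl)
      rw [h1, map_zero]; rfl
  -- the identity over `K`
  have hidK : MvPolynomial.map O.subtype g =
      ∑ l, MvPolynomial.map F.subtype (a l) * C (x l : K) := by
    ext m
    rw [coeff_map, coeff_sum]
    have h1 : ∀ l, coeff m (MvPolynomial.map F.subtype (a l) * C (x l : K)) =
        ((b.repr ⟨((coeff m g : O) : K), hcW m⟩ l • b l : W) : K) := by
      intro l
      rw [mul_comm, coeff_C_mul, coeff_map, hacoeff, Submodule.coe_smul, Subfield.smul_def,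
        mul_comm]
      rfl
    rw [Finset.sum_congr rfl fun l _ => h1 l]
    have h2 := b.sum_repr ⟨((coeff m g : O) : K), hcW m⟩
    have h3 := congrArg (fun y : W => (y : K)) h2
    refine h3.symm.trans ?_
    push_cast
    rfl
  -- the identity over `O`
  let xO : Fin p → O := fun l => eO hle₂ (x l)
  have hidO : g = ∑ l, MvPolynomial.map (eO hle) (a l) * C (xO l) := by
    apply MvPolynomial.map_injective O.subtype Subtype.val_injective
    rw [hidK, map_sum]
    apply Finset.sum_congr rfl
    intro l _
    rw [map_mul, MvPolynomial.map_map, map_C]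
    rfl
  have hidΩ : MvPolynomial.map ρ g =
      ∑ l, MvPolynomial.map (ρ.comp (eO hle)) (a l) * C (ρ (xO l)) := by
    conv_lhs => rw [hidO]
    rw [map_sum]
    apply Finset.sum_congr rfl
    intro l _
    rw [map_mul, MvPolynomial.map_map, map_C]
  -- a dominant index
  have hex : ∃ l, a l ≠ 0 := by
    by_contra h0
    push Not at h0
    apply hg
    rw [hidO]
    apply Finset.sum_eq_zero
    intro l _
    rw [h0, map_zero, zero_mul]
  obtain ⟨l₁, hl₁⟩ := hex
  set vK : MvPolynomial (Fin r) F → V.ValueGroup := fun f =>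
    V.valuation (frMap F.subtype r (algebraMap _ _ f)) with hvK
  obtain ⟨l₀, -, hmax⟩ := Finset.exists_max_image Finset.univ (fun l => vK (a l)) ⟨l₁,
    Finset.mem_univ _⟩
  have hvK0 : ∀ f, vK f = 0 ↔ f = 0 := by
    intro f
    simp only [hvK]
    rw [map_eq_zero, map_eq_zero]
    exact ⟨fun h => IsFractionRing.injective _ (Rat F r) (by rw [h, map_zero]),
      fun h => by rw [h, map_zero]⟩
  have hl₀ : a l₀ ≠ 0 := by
    intro h0
    have h1 := hmax l₁ (Finset.mem_univ _)
    rw [h0, (hvK0 0).2 rfl] at h1
    exact hl₁ ((hvK0 _).1 (le_antisymm h1 zero_le))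
  have ham0 : algebraMap (MvPolynomial (Fin r) F) (Rat F r) (a l₀) ≠ 0 := by
    intro h0
    exact hl₀ (IsFractionRing.injective _ (Rat F r) (by rw [h0, map_zero]))
  let c : Fin p → Rat F r := fun l =>
    algebraMap _ _ (a l) / algebraMap _ _ (a l₀)
  have hc1 : c l₀ = 1 := div_self ham0
  have hcle : ∀ l, V.valuation (frMap F.subtype r (c l)) ≤ 1 := by
    intro l
    simp only [c]
    rw [map_div₀, map_div₀]
    refine div_le_one_of_le₀ (hmax l (Finset.mem_univ _)) zero_le
  -- algebraicity of the residues
  have halg : ∀ l, ∃ q : Polynomial F, q ≠ 0 ∧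
      V.valuation (frMap F.subtype r (q.eval₂ (cst F r) (c l))) < 1 := by
    intro l
    obtain ⟨q, hq, hq'⟩ := h4 F r (V.comap (frMap F.subtype r)) (by
      intro c
      rw [ValuationSubring.mem_comap]
      show frMap F.subtype r (cst F r c) ∈ V
      rw [frMap_cst]
      exact hS.const _) t ht ht0 (c l) (by
        rw [ValuationSubring.mem_comap, ← V.valuation_le_one_iff]
        exact hcle l)
    refine ⟨q, hq, ?_⟩
    rw [comap_lt_one] at hq'
    exact hq'
  have hclF : ∀ y : F₂, (∃ q : Polynomial F, q ≠ 0 ∧ q.eval₂ (Subfield.inclusion hFF) y = 0) →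
      ∃ z, Subfield.inclusion hFF z = y := by
    rintro y ⟨q, hq, hqy⟩
    have h1 : (y : K) ∈ F := by
      apply hcl
      refine ⟨q, hq, ?_⟩
      have h2 := congrArg (F₂.subtype) hqy
      rw [Polynomial.hom_eval₂, map_zero] at h2
      exact h2
    exact ⟨⟨y, h1⟩, rfl⟩
  have hxind : ∀ d : Fin p → F, ∑ l, Subfield.inclusion hFF (d l) * x l = 0 → d = 0 := by
    intro d hd
    have h1 := (Fintype.linearIndependent_iff.1 b.linearIndependent) d (by
      apply Subtype.ext
      have h2 := congrArg (F₂.subtype) hd
      rw [map_zero, map_sum] at h2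
      push_cast
      rw [← h2]
      apply Finset.sum_congr rfl
      intro l _
      rw [map_mul, Subfield.smul_def]
      rfl)
    funext l
    exact h1 l
  refine ⟨algebraMap _ _ (a l₀), ham0, ?_, ?_⟩
  · have hu := unit_sum h3 V (Subfield.inclusion hFF) hclF ((cst K r).comp F₂.subtype)
      (fun y => hS.const _) x hxind (fun l => frMap F.subtype r (c l))
      (fun l => (V.valuation_le_one_iff _).1 (hcle l)) (by
        intro l
        obtain ⟨q, hq, hq'⟩ := halg l
        refine ⟨q, hq, ?_⟩
        rw [Polynomial.hom_eval₂] at hq'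
        have h1 : (frMap F.subtype r).comp (cst F r) =
            ((cst K r).comp F₂.subtype).comp (Subfield.inclusion hFF) := by
          apply RingHom.ext
          intro y
          rw [RingHom.comp_apply, frMap_cst]
          rfl
        rw [← h1]
        exact hq') l₀ (by
          show frMap F.subtype r (c l₀) = 1
          rw [hc1, map_one])
    have h2 : algebraMap (MvPolynomial (Fin r) K) (Rat K r) (MvPolynomial.map O.subtype g) =
        frMap F.subtype r (algebraMap _ _ (a l₀)) *
          ∑ l, frMap F.subtype r (c l) * ((cst K r).comp F₂.subtype) (x l) := by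
      rw [hidK, map_sum, Finset.mul_sum]
      apply Finset.sum_congr rfl
      intro l _
      rw [map_mul, ← frMap_algebraMap]
      simp only [c]
      rw [map_div₀]
      have h5 : frMap F.subtype r (algebraMap (MvPolynomial (Fin r) F) (Rat F r) (a l₀)) ≠ 0 := by
        rw [Ne, map_eq_zero]; exact ham0
      field_simp
      rfl
    rw [h2, map_mul, hu, mul_one]
  · have hu := unit_sum h3 V' (Subfield.inclusion hFF) hclF
      ((cst Ω r).comp (ρ.comp (eO hle₂)))
      (fun y => hS.const' _) x hxind (fun l => frMap (ρ.comp (eO hle)) r (c l))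
      (fun l => (V'.valuation_le_one_iff _).1 (hS.le _ (hcle l))) (by
        intro l
        obtain ⟨q, hq, hq'⟩ := halg l
        refine ⟨q, hq, ?_⟩
        have hq'' := hS.lt _ hq'
        rw [Polynomial.hom_eval₂] at hq''
        have h1 : (frMap (ρ.comp (eO hle)) r).comp (cst F r) =
            ((cst Ω r).comp (ρ.comp (eO hle₂))).comp (Subfield.inclusion hFF) := by
          apply RingHom.ext
          intro y
          rw [RingHom.comp_apply, frMap_cst]
          rfl
        rw [← h1]
        exact hq'') l₀ (by
          show frMap (ρ.comp (eO hle)) r (c l₀) = 1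
          rw [hc1, map_one])
    have h2 : algebraMap (MvPolynomial (Fin r) Ω) (Rat Ω r) (MvPolynomial.map ρ g) =
        frMap (ρ.comp (eO hle)) r (algebraMap _ _ (a l₀)) *
          ∑ l, frMap (ρ.comp (eO hle)) r (c l) * ((cst Ω r).comp (ρ.comp (eO hle₂))) (x l) := by
      rw [hidΩ, map_sum, Finset.mul_sum]
      apply Finset.sum_congr rfl
      intro l _
      rw [map_mul, ← frMap_algebraMap]
      simp only [c]
      rw [map_div₀]
      have h5 : frMap (ρ.comp (eO hle)) r
          (algebraMap (MvPolynomial (Fin r) F) (Rat F r) (a l₀)) ≠ 0 := by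
        rw [Ne, map_eq_zero]; exact ham0
      field_simp
      rfl
    rw [h2, map_mul, hu, mul_one]

end VF
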