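import Pool.Agent.Helper6.LP.V6c

/-!
V6: the main theorem of valuative faithfulness.
-/

open MvPolynomial

namespace VF

universe u

section relCl

variable {K : Type u} [Field K]

/-- the relative algebraic closure of a subfield -/
noncomputable def relCl (F : Subfield K) : Subfield K := (algebraicClosure F K).toSubfield

theorem mem_relCl {F : Subfield K} {x : K} : x ∈ relCl F ↔ IsAlgebraic F x := by
  unfold relCl
  rw [IntermediateField.mem_toSubfield, mem_algebraicClosure_iff]

theorem le_relCl (F : Subfield K) : F ≤ relCl F := by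
  intro x hx
  rw [mem_relCl]
  exact isAlgebraic_algebraMap (⟨x, hx⟩ : F)

theorem isAlgebraic_mono {F F' : Subfield K} (h : F ≤ F') {x : K} (hx : IsAlgebraic F x) :
    IsAlgebraic F' x := by
  obtain ⟨p, hp, hpx⟩ := hx
  refine ⟨p.map (Subfield.inclusion h), by rwa [Ne, Polynomial.map_eq_zero], ?_⟩
  rw [Polynomial.aeval_def, Polynomial.eval₂_map]
  exact hpx

theorem relCl_mono {F F' : Subfield K} (h : F ≤ F') : relCl F ≤ relCl F' := by
  intro x hx
  rw [mem_relCl] at hx ⊢
  exact isAlgebraic_mono h hx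

theorem relCl_closed (F : Subfield K) (x : K) (hx : IsAlgebraic (relCl F) x) : x ∈ relCl F := by
  rw [mem_relCl]
  have h1 : IsAlgebraic (algebraicClosure F K) x := by
    obtain ⟨p, hp, hpx⟩ := hx
    exact ⟨p, hp, hpx⟩
  exact h1.restrictScalars F

end relCl

section mi

theorem mi_iff {L Γ : Type u} [Field L] [LinearOrderedCommGroupWithZero Γ] (v : Valuation L Γ)
    {r : ℕ} (t : Fin r → L) (ht : ∀ i, v (t i) ≠ 0) :
    MI v t ↔ LinearIndependent ℤ
      (fun i => (Additive.ofMul (Units.mk0 (v (t i)) (ht i)) : Additive Γˣ)) := by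
  rw [Fintype.linearIndependent_iff]
  have key : ∀ n : Fin r → ℤ,
      (∑ i, n i • (Additive.ofMul (Units.mk0 (v (t i)) (ht i)) : Additive Γˣ)) = 0 ↔
        ∏ i, v (t i) ^ n i = 1 := by
    intro n
    have h1 : (∑ i, n i • (Additive.ofMul (Units.mk0 (v (t i)) (ht i)) : Additive Γˣ)) =
        Additive.ofMul (∏ i, Units.mk0 (v (t i)) (ht i) ^ n i) := by
      rw [ofMul_prod]
      apply Finset.sum_congr rfl
      intro i _
      rw [ofMul_zpow]
    rw [h1, ofMul_eq_zero, Units.ext_iff, Units.coe_prod, Units.val_one]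
    simp
  constructor
  · intro h c hc i
    rw [key] at hc
    exact congrFun (h c hc) i
  · intro h n hn
    funext i
    exact h n (by rw [key]; exact hn) i

theorem mi_select {L Γ P : Type u} [Field L] [LinearOrderedCommGroupWithZero Γ] [CommRing P]
    (v : Valuation L Γ) (φ : P →+* L) (G : Set P) {r : ℕ} (T : Fin r → P)
    (hT : ∀ i, T i ∈ Submonoid.closure G) (hT0 : ∀ i, φ (T i) ≠ 0)
    (hmi : MI v (fun i => φ (T i))) :
    ∃ g : Fin r → P, (∀ i, g i ∈ G) ∧ (∀ i, φ (g i) ≠ 0) ∧ MI v (fun i => φ (g i)) := by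
  have hv : ∀ {x : L}, x ≠ 0 → v x ≠ 0 := fun hx => by rwa [Ne, map_eq_zero]
  let S : Set (Additive Γˣ) := {a | ∃ g ∈ G, ∃ h : v (φ g) ≠ 0,
    a = Additive.ofMul (Units.mk0 (v (φ g)) h)}
  have h1 : ∀ x ∈ Submonoid.closure G, ∀ h : v (φ x) ≠ 0,
      (Additive.ofMul (Units.mk0 (v (φ x)) h) : Additive Γˣ) ∈ AddSubgroup.closure S := by
    intro x hx
    refine Submonoid.closure_induction (motive := fun x _ => ∀ h : v (φ x) ≠ 0,
      (Additive.ofMul (Units.mk0 (v (φ x)) h) : Additive Γˣ) ∈ AddSubgroup.closure S) ?_ ?_ ?_ hx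
    · intro g hg h
      exact AddSubgroup.subset_closure ⟨g, hg, h, rfl⟩
    · intro h
      have h2 : (Additive.ofMul (Units.mk0 (v (φ 1)) h) : Additive Γˣ) = 0 := by
        rw [ofMul_eq_zero, Units.ext_iff]
        simp
      rw [h2]
      exact AddSubgroup.zero_mem _
    · intro x y _ _ hx hy h
      have hx0 : v (φ x) ≠ 0 := by
        intro h0
        apply h
        rw [map_mul, map_mul, h0, zero_mul]
      have hy0 : v (φ y) ≠ 0 := by
        intro h0
        apply h
        rw [map_mul, map_mul, h0, mul_zero]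
      have h2 : (Additive.ofMul (Units.mk0 (v (φ (x * y))) h) : Additive Γˣ) =
          Additive.ofMul (Units.mk0 (v (φ x)) hx0) + Additive.ofMul (Units.mk0 (v (φ y)) hy0) := by
        rw [← ofMul_mul]
        congr 1
        rw [Units.ext_iff]
        simp
      rw [h2]
      exact AddSubgroup.add_mem _ (hx hx0) (hy hy0)
  obtain ⟨b, hb, hbi⟩ := stV5 (Additive Γˣ) r
    (fun i => Additive.ofMul (Units.mk0 (v (φ (T i))) (hv (hT0 i)))) S
    ((mi_iff v (fun i => φ (T i)) (fun i => hv (hT0 i))).1 hmi) (fun i => h1 _ (hT i) _)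
  choose g hgG hg0 hgb using hb
  refine ⟨g, hgG, fun i => by rw [← map_ne_zero v]; exact hg0 i, ?_⟩
  rw [mi_iff v (fun i => φ (g i)) hg0]
  have h3 : (fun i => (Additive.ofMul (Units.mk0 (v (φ (g i))) (hg0 i)) : Additive Γˣ)) = b := by
    funext i
    exact (hgb i).symm
  rw [h3]
  exact hbi

end mi

/-- **V6** -/
theorem stV6 (h1 : StV1.{u}) (h2 : StV2.{u}) (h3 : StV3.{u}) (h4 : StV4.{u}) (h4' : StV4'.{u}) :
    StV6.{u} := by
  classical
  intro K Ω _ _ _ O ρ r G hG T hT hTi
  -- the two maps to fields of rational functions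
  let φ : MvPolynomial (Fin r) O →+* Rat K r :=
    (algebraMap (MvPolynomial (Fin r) K) (Rat K r)).comp (MvPolynomial.map O.subtype)
  let ψ : MvPolynomial (Fin r) O →+* Rat Ω r :=
    (algebraMap (MvPolynomial (Fin r) Ω) (Rat Ω r)).comp (MvPolynomial.map ρ)
  have hTL : AlgebraicIndependent K (fun i => φ (T i)) :=
    hTi.map' (f := IsScalarTower.toAlgHom K (MvPolynomial (Fin r) K) (Rat K r))
      (IsFractionRing.injective _ _)
  have hT0 : ∀ i, φ (T i) ≠ 0 := fun i => hTL.ne_zero i
  obtain ⟨V, hVK, hVmi⟩ := h1 K (Rat K r) r _ hTL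
  have hVc : ∀ c : K, cst K r c ∈ V := by
    intro c
    have h5 := hVK c
    rwa [IsScalarTower.algebraMap_apply K (MvPolynomial (Fin r) K) (Rat K r)] at h5
  obtain ⟨g, hgG, hg0, hgmi⟩ := mi_select V.valuation φ G T hT hT0 hVmi
  -- the field
  let τ : Finset (MvPolynomial (Fin r) O) := Finset.univ.image g
  have hτG : (τ : Set (MvPolynomial (Fin r) O)) ⊆ G := by
    intro x hx
    obtain ⟨i, -, rfl⟩ := Finset.mem_image.1 (Finset.mem_coe.1 hx)
    exact hgG i
  have hτc : τ.card ≤ r := by
    refine Finset.card_image_le.trans ?_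
    simp
  let F : Subfield K := relCl (coefField (τ : Set (MvPolynomial (Fin r) O)))
  have hle : F.toSubring ≤ O := by
    intro x hx
    exact hG τ hτG (hτc.trans (Nat.le_succ r)) x (mem_relCl.1 hx)
  obtain ⟨V', hV'c, hV'le, hV'lt⟩ := h2 F Ω (ρ.comp (eO hle)) r (V.comap (frMap F.subtype r)) (by
    intro c
    rw [ValuationSubring.mem_comap]
    show frMap F.subtype r (cst F r c) ∈ V
    rw [frMap_cst]
    exact hVc _)
  have hS : Sides r F.subtype (ρ.comp (eO hle)) V V' := by
    refine ⟨hVc, hV'c, ?_, ?_⟩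
    · intro z hz
      rw [ValuationSubring.valuation_le_one_iff]
      apply hV'le
      rw [ValuationSubring.mem_comap, ← V.valuation_le_one_iff]
      exact hz
    · intro z hz
      apply hV'lt
      rw [comap_lt_one]
      exact hz
  -- the selected elements live over `F`
  have hgF : ∀ i, ∃ t : Rat F r, frMap F.subtype r t = φ (g i) := by
    intro i
    have hc : ∀ m, ((coeff m (g i) : O) : K) ∈ F := by
      intro m
      apply le_relCl
      apply Subfield.subset_closure
      exact ⟨g i, Finset.mem_coe.2 (Finset.mem_image_of_mem _ (Finset.mem_univ _)), m, rfl⟩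
    refine ⟨algebraMap _ _ (∑ m ∈ (g i).support, monomial m (⟨_, hc m⟩ : F)), ?_⟩
    rw [frMap_algebraMap]
    show _ = algebraMap _ _ (MvPolynomial.map O.subtype (g i))
    congr 1
    conv_rhs => rw [(g i).as_sum]
    rw [map_sum, map_sum]
    apply Finset.sum_congr rfl
    intro m _
    rw [map_monomial, map_monomial]
    rfl
  choose t ht using hgF
  have ht0 : ∀ i, t i ≠ 0 := by
    intro i h0
    apply hg0 i
    rw [← ht, h0, map_zero]
  have htmi : MI (V.comap (frMap F.subtype r)).valuation t := by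
    intro n hn
    apply hgmi n
    have h5 : (V.comap (frMap F.subtype r)).valuation (∏ i, t i ^ n i) = 1 := by
      rw [map_prod]
      simpa only [map_zpow₀] using hn
    rw [comap_eq_one, map_prod, map_prod] at h5
    simpa only [map_zpow₀, ht] using h5
  -- transfer
  have htr : ∀ x ∈ Submonoid.closure G, x ≠ 0 → ∃ a : Rat F r, a ≠ 0 ∧
      V.valuation (φ x) = V.valuation (frMap F.subtype r a) ∧
      V'.valuation (ψ x) = V'.valuation (frMap (ρ.comp (eO hle)) r a) := by
    intro x hx
    refine Submonoid.closure_induction (motive := fun x _ => x ≠ 0 → ∃ a : Rat F r, a ≠ 0 ∧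
      V.valuation (φ x) = V.valuation (frMap F.subtype r a) ∧
      V'.valuation (ψ x) = V'.valuation (frMap (ρ.comp (eO hle)) r a)) ?_ ?_ ?_ hx
    · intro x hxG hx0
      have hτ₂c : (insert x τ).card ≤ r + 1 := (Finset.card_insert_le _ _).trans (by omega)
      have hτ₂G : ((insert x τ : Finset _) : Set (MvPolynomial (Fin r) O)) ⊆ G := by
        intro y hy
        rcases Finset.mem_insert.1 (Finset.mem_coe.1 hy) with rfl | hy
        · exact hxG
        · exact hτG (Finset.mem_coe.2 hy)
      let F₂ : Subfield K := relCl (coefField ((insert x τ : Finset _) :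
        Set (MvPolynomial (Fin r) O)))
      have hFF : F ≤ F₂ := by
        apply relCl_mono
        apply Subfield.closure_mono
        rintro y ⟨z, hz, m, rfl⟩
        exact ⟨z, Finset.mem_coe.2 (Finset.mem_insert_of_mem (Finset.mem_coe.1 hz)), m, rfl⟩
      have hle₂ : F₂.toSubring ≤ O := by
        intro y hy
        exact hG _ hτ₂G hτ₂c y (mem_relCl.1 hy)
      exact factor_transfer h3 h4 hFF hle hle₂ (relCl_closed _) hS t htmi ht0 x hx0 (by
        intro m
        apply le_relCl
        apply Subfield.subset_closure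
        exact ⟨x, Finset.mem_coe.2 (Finset.mem_insert_self _ _), m, rfl⟩)
    · intro _
      refine ⟨1, one_ne_zero, ?_, ?_⟩
      · rw [map_one, map_one, map_one, map_one]
      · rw [map_one, map_one, map_one, map_one]
    · intro x y _ _ hx hy hxy
      obtain ⟨a, ha0, ha, ha'⟩ := hx (left_ne_zero_of_mul hxy)
      obtain ⟨b, hb0, hb, hb'⟩ := hy (right_ne_zero_of_mul hxy)
      refine ⟨a * b, mul_ne_zero ha0 hb0, ?_, ?_⟩
      · rw [map_mul, map_mul, map_mul, map_mul, ha, hb]
      · rw [map_mul, map_mul, map_mul, map_mul, ha', hb']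
  have hTne : ∀ i, T i ≠ 0 := by
    intro i h0
    apply hT0 i
    rw [h0, map_zero]
  choose a ha0 ha ha' using fun i => htr (T i) (hT i) (hTne i)
  have hmi' : MI V'.valuation (fun i => ψ (T i)) := by
    intro n hn
    apply hVmi n
    have hz : (∏ i, a i ^ n i) ≠ 0 := Finset.prod_ne_zero_iff.2 fun i _ => zpow_ne_zero _ (ha0 i)
    have h5 : V'.valuation (frMap (ρ.comp (eO hle)) r (∏ i, a i ^ n i)) = 1 := by
      rw [map_prod, map_prod]
      simp only [map_zpow₀]
      rw [← hn]
      apply Finset.prod_congr rfl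
      intro i _
      rw [ha' i]
    have h6 := hS.eq_one hz h5
    rw [map_prod, map_prod] at h6
    simp only [map_zpow₀] at h6
    rw [← h6]
    apply Finset.prod_congr rfl
    intro i _
    rw [ha i]
  have hψ0 : ∀ i, ψ (T i) ≠ 0 := by
    intro i h0
    have h5 := ha' i
    rw [h0, map_zero] at h5
    exact ha0 i (by simpa using h5.symm)
  have hfin : AlgebraicIndependent Ω (fun i => ψ (T i)) := by
    refine h4' Ω (Rat Ω r) V' ?_ r _ hmi' hψ0
    intro c
    rw [IsScalarTower.algebraMap_apply Ω (MvPolynomial (Fin r) Ω) (Rat Ω r)]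
    exact hV'c c
  exact AlgebraicIndependent.of_comp
    (IsScalarTower.toAlgHom Ω (MvPolynomial (Fin r) Ω) (Rat Ω r)) hfin

end VF
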